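import Pool.Agent.Helper79K9.SPC.Defs

/-! [CARD] levels of completeness -/

set_option autoImplicit false

namespace Pool.Agent.Helper79K9.SPC

open Cardinal Set

universe u

/-- [CARD] -/
theorem card : S_CARD.{u} := by
  intro κ hκ
  by_cases hreg : κ.IsRegular
  · refine ⟨PUnit, fun _ => κ, fun _ => ⟨hreg, le_rfl, ?_⟩, fun μ hμ => ⟨PUnit.unit, hμ⟩⟩
    rw [mk_punit]
    exact one_lt_aleph0.trans_le hκ
  · have hcof : κ.ord.cof < κ := by
      by_contra h
      exact hreg ⟨hκ, not_lt.1 h⟩
    obtain ⟨s, hs, hcard⟩ := Order.exists_cof_eq (α := κ.ord.ToType)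
    rw [Ordinal.cof_toType] at hcard
    have hlt : ℵ₀ < κ := by
      refine lt_of_le_of_ne hκ ?_
      rintro rfl
      exact hreg isRegular_aleph0
    have hmax : ∀ i : s, max #(Iio i.1) (max #s ℵ₀) < κ := by
      intro i
      refine max_lt (mk_Iio_toType_ord_lt i.1) (max_lt ?_ hlt)
      rw [hcard]
      exact hcof
    refine ⟨s, fun i => Order.succ (max #(Iio i.1) (max #s ℵ₀)), fun i => ⟨?_, ?_, ?_⟩, ?_⟩
    · exact isRegular_succ ((le_max_right _ _).trans (le_max_right _ _))
    · exact Order.succ_le_of_lt (hmax i)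
    · exact Order.lt_succ_of_le ((le_max_left _ _).trans (le_max_right _ _))
    · intro μ hμ
      have h1 : μ.ord < Ordinal.type (α := κ.ord.ToType) (· < ·) := by
        rw [Ordinal.type_toType]
        exact ord_lt_ord.2 hμ
      let x : κ.ord.ToType := Ordinal.enum (α := κ.ord.ToType) (· < ·) ⟨μ.ord, h1⟩
      have h2 : Ordinal.typein (α := κ.ord.ToType) (· < ·) x = μ.ord := Ordinal.typein_enum _ _
      have h3 : #(Iio x) = μ := by
        have h4 := Ordinal.card_typein (r := ((· < ·) : κ.ord.ToType → κ.ord.ToType → Prop)) x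
        rw [h2, card_ord] at h4
        exact h4.symm
      obtain ⟨i, hi, hxi⟩ := hs x
      refine ⟨⟨i, hi⟩, Order.lt_succ_of_le (le_trans ?_ (le_max_left _ _))⟩
      rw [← h3]
      exact mk_le_mk_of_subset (Iio_subset_Iio hxi)

end Pool.Agent.Helper79K9.SPC
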