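import Mathlib

/-!
# Simultaneous packing and covering in super-reflexive spaces: statements of the parts

`MP_a7a5c5_an`: every super-reflexive normed space `X` has `gamma X < 2`.
-/

set_option autoImplicit false

namespace Pool.Agent.Helper79K9.SPC

open Filter Cardinal Set

universe u

/-- `P` is `2`-separated -/
def TwoSep {X : Type u} [NormedAddCommGroup X] (P : Set X) : Prop :=
  ∀ x ∈ P, ∀ y ∈ P, x ≠ y → 2 ≤ ‖x - y‖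

/-- `P` is `r`-dense -/
def RDense {X : Type u} [NormedAddCommGroup X] (r : ℝ) (P : Set X) : Prop :=
  ∀ x : X, ∃ p ∈ P, ‖x - p‖ ≤ r

/-- uniform convexity of a seminorm, in the form which is used: -/
def UC {X : Type u} [NormedAddCommGroup X] [NormedSpace ℝ X] (ν : Seminorm ℝ X) (k : ℝ) : Prop :=
  0 < k ∧ k ≤ 1 ∧ ∀ x y : X, ν x ≤ 1 + k → ν y ≤ 1 + k → 1 / 2 ≤ ν (x - y) →
    ν ((1 / 2 : ℝ) • (x + y)) < 1

/-- FIN: the finite-dimensional case -/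
def S_FIN : Prop :=
  ∀ (X : Type u) [NormedAddCommGroup X] [NormedSpace ℝ X] [FiniteDimensional ℝ X],
    ∃ r : ℝ, 0 < r ∧ r < 2 ∧ ∃ P : Set X, TwoSep P ∧ RDense r P

/-- CARD: levels of completeness -/
def S_CARD : Prop :=
  ∀ κ : Cardinal.{u}, ℵ₀ ≤ κ → ∃ (I : Type u) (c : I → Cardinal.{u}),
    (∀ i, (c i).IsRegular ∧ c i ≤ κ ∧ #I < c i) ∧ ∀ μ < κ, ∃ i, μ < c i

/-- DENS: a separated subset of the unit ball which is as large as a dense set -/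
def S_DENS : Prop :=
  ∀ (X : Type u) [NormedAddCommGroup X] [NormedSpace ℝ X], ¬ FiniteDimensional ℝ X →
    ∃ V D : Set X, (∀ v ∈ V, ‖v‖ ≤ 1) ∧ (∀ v ∈ V, ∀ w ∈ V, v ≠ w → 1 / 2 ≤ ‖v - w‖) ∧
      V.Infinite ∧ Dense D ∧ #D ≤ #V

/-- the filters of KEY -/
structure Fam {X : Type u} [NormedAddCommGroup X] [NormedSpace ℝ X] (k : ℝ) {I : Type u}
    (c : I → Cardinal.{u}) (F : I → Filter X) : Prop where
  neBot : ∀ i, (F i).NeBot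
  cpl : ∀ i, CardinalInterFilter (F i) (c i)
  bd : ∀ i, ∀ᶠ v in F i, ‖v‖ ≤ 1
  sep : ∀ i j, c i ≤ c j → ∀ a : X, ∀ σ : ℝ, (σ = 1 ∨ σ = -1) →
    ∀ᶠ z in F i, ∀ᶠ z' in F j, 1 + k ≤ ‖a + (σ / 2) • z + z'‖

/-- KEY: for the levels above some level there are filters as in `Fam` -/
def S_KEY : Prop :=
  ∀ (X : Type u) [NormedAddCommGroup X] [NormedSpace ℝ X] (ν : Seminorm ℝ X) (C k : ℝ) (V : Set X)
    (I : Type u) (c : I → Cardinal.{u}),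
    0 < C → (∀ x, ν x ≤ C * ‖x‖) → (∀ x, ‖x‖ ≤ C * ν x) → UC ν k →
    (∀ v ∈ V, ‖v‖ ≤ 1) → (∀ v ∈ V, ∀ w ∈ V, v ≠ w → 1 / 2 ≤ ‖v - w‖) →
    Nonempty I → (∀ i, (c i).IsRegular ∧ c i ≤ #V) →
    ∃ i₀ : I, ∃ F : {i : I // c i₀ ≤ c i} → Filter X,
      Fam (X := X) (k / 2) (fun i : {i : I // c i₀ ≤ c i} => c i.1) F

/-- STEP: one step of the transfinite construction. `s = 2 - k / 2`, `r = 2 / (1 + k / 5)` -/
def S_STEP : Prop :=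
  ∀ (X : Type u) [NormedAddCommGroup X] [NormedSpace ℝ X] (k : ℝ), 0 < k → k ≤ 1 →
    ∀ (I : Type u) (c : I → Cardinal.{u}) (F : I → Filter X), Fam k c F →
    ∀ i : I, #I < c i → ℵ₀ ≤ c i → ∀ P : Set X, #P < c i →
    (∀ p ∈ P, ∀ q ∈ P, p ≠ q → ∀ᶠ v in F i, 1 + k ≤ ‖(1 / (2 * (2 - k / 2))) • (p - q) + v‖) →
    ∀ x : X, (∀ p ∈ P, 2 / (1 + k / 5) ≤ ‖x - p‖) →
    ∃ q : X, ‖q - x‖ ≤ 2 / (1 + k / 5) ∧ (∀ p ∈ P, 2 ≤ ‖q - p‖) ∧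
      ∀ p ∈ P, ∀ j : I, c i ≤ c j → ∀ σ : ℝ, (σ = 1 ∨ σ = -1) →
        ∀ᶠ v in F j, 1 + k ≤ ‖(σ / (2 * (2 - k / 2))) • (q - p) + v‖

/-- REC: the transfinite construction -/
def S_REC : Prop :=
  ∀ (X : Type u) [NormedAddCommGroup X] [NormedSpace ℝ X] (k : ℝ), 0 < k → k ≤ 1 →
    ∀ (κ : Cardinal.{u}), ℵ₀ ≤ κ → ∀ D : Set X, Dense D → #D ≤ κ →
    ∀ (I : Type u) (c : I → Cardinal.{u}) (F : I → Filter X), Fam k c F →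
    (∀ i, ℵ₀ ≤ c i ∧ #I < c i) → (∀ μ < κ, ∃ i, μ < c i) →
    ∃ P : Set X, TwoSep P ∧ ∀ x ∈ D, ∃ p ∈ P, ‖x - p‖ ≤ 2 / (1 + k / 5)

end Pool.Agent.Helper79K9.SPC
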