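import Pool.Agent.Helper79K9.SPC.Defs

/-! [DENS] a separated subset of the unit ball which is as large as a dense set -/

set_option autoImplicit false

namespace Pool.Agent.Helper79K9.SPC

open Cardinal Set

universe u

namespace DensL

variable {X : Type u} [NormedAddCommGroup X] [NormedSpace ℝ X]

/-- rational linear combinations -/
noncomputable def comb (V : Set X) : (V →₀ ℚ) →+ X :=
  Finsupp.liftAddHom fun v => ((AddMonoidHom.flip (smulAddHom ℝ X)) v.1).comp
    (Rat.castHom ℝ).toAddMonoidHom

theorem comb_single (V : Set X) (v : V) (q : ℚ) : comb V (Finsupp.single v q) = (q : ℝ) • v.1 := by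
  rw [comb, Finsupp.liftAddHom_apply_single]
  rfl

theorem comb_smul (V : Set X) (q : ℚ) (c : V →₀ ℚ) : comb V (q • c) = (q : ℝ) • comb V c := by
  induction c using Finsupp.induction_linear with
  | zero => rw [smul_zero, map_zero, smul_zero]
  | add f g hf hg => rw [smul_add, map_add, map_add, hf, hg, smul_add]
  | single v a =>
    rw [Finsupp.smul_single, comb_single, comb_single, smul_eq_mul, Rat.cast_mul, mul_smul]

theorem span_le (V : Set X) : (Submodule.span ℝ V : Set X) ⊆ closure (range (comb V)) := by
  intro x hx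
  induction hx using Submodule.span_induction with
  | mem x hx =>
    refine subset_closure ⟨Finsupp.single ⟨x, hx⟩ 1, ?_⟩
    rw [comb_single, Rat.cast_one, one_smul]
  | zero => exact subset_closure ⟨0, map_zero _⟩
  | add x y _ _ hx hy =>
    refine map_mem_closure₂ continuous_add hx hy ?_
    rintro _ ⟨a, rfl⟩ _ ⟨b, rfl⟩
    exact ⟨a + b, map_add _ _ _⟩
  | smul r x _ hx =>
    have hr : r ∈ closure (range ((↑) : ℚ → ℝ)) := Rat.denseRange_cast r
    refine map_mem_closure₂ continuous_smul hr hx ?_
    rintro _ ⟨q, rfl⟩ _ ⟨b, rfl⟩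
    exact ⟨q • b, comb_smul V q b⟩

end DensL

open DensL in
/-- [DENS] -/
theorem dens : S_DENS.{u} := by
  intro X _ _ hX
  let S : Set (Set X) := {V | (∀ v ∈ V, ‖v‖ ≤ 1) ∧
    ∀ v ∈ V, ∀ w ∈ V, v ≠ w → 1 / 2 ≤ ‖v - w‖}
  obtain ⟨V, hV⟩ : ∃ V, Maximal (· ∈ S) V := by
    refine zorn_subset S ?_
    intro c hc hchain
    refine ⟨⋃₀ c, ⟨?_, ?_⟩, fun s hs => subset_sUnion_of_mem hs⟩
    · rintro v ⟨t, ht, hvt⟩
      exact (hc ht).1 v hvt
    · rintro v ⟨t, ht, hvt⟩ w ⟨t', ht', hwt⟩ hne
      rcases hchain.total ht ht' with h | h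
      · exact (hc ht').2 v (h hvt) w hwt hne
      · exact (hc ht).2 v hvt w (h hwt) hne
  have hVS := hV.prop
  have htop : (Submodule.span ℝ V).topologicalClosure = ⊤ := by
    by_contra hne
    have h1 : ∃ x, x ∉ (Submodule.span ℝ V).topologicalClosure := by
      by_contra hcon
      push Not at hcon
      exact hne (Submodule.eq_top_iff'.2 hcon)
    obtain ⟨x₀, hx₀, hn, hd⟩ := riesz_lemma_of_lt_one
      (Submodule.isClosed_topologicalClosure _) h1 (r := 1 / 2) (by norm_num)
    have hVY : ∀ v ∈ V, v ∈ (Submodule.span ℝ V).topologicalClosure := fun v hv =>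
      Submodule.le_topologicalClosure _ (Submodule.subset_span hv)
    have h2 : insert x₀ V ∈ S := by
      refine ⟨?_, ?_⟩
      · intro v hv
        rcases hv with rfl | hv
        · exact hn.le
        · exact hVS.1 v hv
      · intro v hv w hw hne
        rcases hv with rfl | hv <;> rcases hw with rfl | hw
        · exact absurd rfl hne
        · exact hd w (hVY w hw)
        · rw [norm_sub_rev]
          exact hd v (hVY v hv)
        · exact hVS.2 v hv w hw hne
    have h3 := hV.le_of_ge h2 (subset_insert _ _)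
    exact hx₀ (hVY x₀ (h3 (mem_insert _ _)))
  have hinf : V.Infinite := by
    intro hfin
    apply hX
    have h1 : FiniteDimensional ℝ (Submodule.span ℝ V) := FiniteDimensional.span_of_finite ℝ hfin
    have h2 : (Submodule.span ℝ V).topologicalClosure = Submodule.span ℝ V :=
      (Submodule.closed_of_finiteDimensional _).submodule_topologicalClosure_eq
    rw [h2] at htop
    rw [htop] at h1
    exact Module.Finite.of_surjective (Submodule.topEquiv (R := ℝ) (M := X)).toLinearMap
      (Submodule.topEquiv (R := ℝ) (M := X)).surjective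
  have hinf' : Infinite V := hinf.to_subtype
  refine ⟨V, range (comb V), hVS.1, hVS.2, hinf, ?_, ?_⟩
  · intro x
    have h1 : x ∈ (Submodule.span ℝ V).topologicalClosure := by
      rw [htop]; trivial
    exact closure_minimal (span_le V) isClosed_closure h1
  · refine mk_range_le.trans ?_
    rw [mk_finsupp_lift_of_infinite, Cardinal.mkRat, lift_aleph0]
    exact max_le (lift_id'.{0, u} _).le (aleph0_le_mk V)

end Pool.Agent.Helper79K9.SPC
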