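import Pool.Agent.Helper79K9.SPC.Defs

/-!
MP_a7a5c5_an, leaf [FIN]: the finite-dimensional case.
-/

set_option autoImplicit false

namespace Pool.Agent.Helper79K9.SPC

open Set

universe u

namespace FinL

variable {X : Type u} [NormedAddCommGroup X]

/-- `P` is invariant under the translations from `L`. -/
def Inv (L : Set X) (P : Set X) : Prop := ∀ p ∈ P, ∀ l ∈ L, p + l ∈ P

/-- A maximal invariant separated set. -/
theorem exists_max (L : AddSubgroup X) (hL : ∀ l ∈ L, l ≠ 0 → 2 ≤ ‖l‖) :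
    ∃ P : Set X, TwoSep P ∧ Inv (L : Set X) P ∧ ∀ x : X, ∃ p ∈ P, ‖x - p‖ < 2 := by
  obtain ⟨P, hP⟩ := zorn_subset {P : Set X | TwoSep P ∧ Inv (L : Set X) P} (by
    intro c hc hchain
    refine ⟨⋃₀ c, ⟨?_, ?_⟩, fun s hs => subset_sUnion_of_mem hs⟩
    · rintro x ⟨s, hs, hx⟩ y ⟨t, ht, hy⟩ hxy
      rcases hchain.total hs ht with h | h
      · exact (hc ht).1 x (h hx) y hy hxy
      · exact (hc hs).1 x hx y (h hy) hxy
    · rintro p ⟨s, hs, hp⟩ l hl
      exact ⟨s, hs, (hc hs).2 p hp l hl⟩)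
  have hPm := hP.prop
  refine ⟨P, hPm.1, hPm.2, ?_⟩
  intro x
  by_contra hcon
  push Not at hcon
  have hmem : P ∪ {y | ∃ l ∈ L, y = x + l} ∈ {P : Set X | TwoSep P ∧ Inv (L : Set X) P} := by
    have key : ∀ p ∈ P, ∀ l ∈ L, 2 ≤ ‖x + l - p‖ := by
      intro p hp l hl
      have h1 := hcon (p + -l) (hPm.2 p hp (-l) (L.neg_mem hl))
      have h2 : x - (p + -l) = x + l - p := by abel
      rwa [h2] at h1
    refine ⟨?_, ?_⟩
    · rintro y (hy | ⟨l, hl, rfl⟩) z (hz | ⟨l', hl', rfl⟩) hyz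
      · exact hPm.1 y hy z hz hyz
      · rw [norm_sub_rev]; exact key y hy l' hl'
      · exact key z hz l hl
      · have h1 : x + l - (x + l') = l - l' := by abel
        rw [h1]
        apply hL _ (L.sub_mem hl hl')
        intro h0
        apply hyz
        rw [sub_eq_zero.1 h0]
    · rintro y (hy | ⟨l, hl, rfl⟩) l' hl'
      · exact Or.inl (hPm.2 y hy l' hl')
      · exact Or.inr ⟨l + l', L.add_mem hl hl', by abel⟩
  have hle := hP.le_of_ge hmem subset_union_left
  have hx : x ∈ P := hle (Or.inr ⟨0, L.zero_mem, by simp⟩)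
  have := hcon x hx
  simp at this
  linarith

end FinL

theorem fin : S_FIN.{u} := by
  intro X _ _ _
  -- coordinates
  obtain ⟨n, hn⟩ : ∃ n, n = Module.finrank ℝ X := ⟨_, rfl⟩
  let e : X ≃L[ℝ] (Fin n → ℝ) :=
    ContinuousLinearEquiv.ofFinrankEq (by rw [Module.finrank_fintype_fun_eq_card, hn]; simp)
  obtain ⟨C, hC, hCe⟩ := (e : X →L[ℝ] (Fin n → ℝ)).bound
  -- the lattice
  let M : ℝ := 2 * C
  have hM : 0 < M := by positivity
  let L : AddSubgroup X :=
    { carrier := {x | ∀ i, ∃ z : ℤ, e x i = M * z}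
      zero_mem' := fun i => ⟨0, by simp⟩
      add_mem' := by
        intro x y hx hy i
        obtain ⟨z, hz⟩ := hx i
        obtain ⟨w, hw⟩ := hy i
        exact ⟨z + w, by rw [map_add, Pi.add_apply, hz, hw]; push_cast; ring⟩
      neg_mem' := by
        intro x hx i
        obtain ⟨z, hz⟩ := hx i
        exact ⟨-z, by rw [map_neg, Pi.neg_apply, hz]; push_cast; ring⟩ }
  have hL : ∀ l ∈ L, l ≠ 0 → 2 ≤ ‖l‖ := by
    intro l hl h0
    have h1 : e l ≠ 0 := fun h => h0 (by simpa using h)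
    obtain ⟨i, hi⟩ := Function.ne_iff.1 h1
    obtain ⟨z, hz⟩ := hl i
    have hz0 : z ≠ 0 := by
      rintro rfl
      apply hi
      rw [hz]; simp
    have h2 : M ≤ ‖e l‖ := by
      have h3 : ‖e l i‖ ≤ ‖e l‖ := norm_le_pi_norm (e l) i
      rw [hz, norm_mul, Real.norm_eq_abs, Real.norm_eq_abs, abs_of_pos hM] at h3
      have h4 : (1 : ℝ) ≤ |(z : ℝ)| := by
        have := Int.one_le_abs hz0
        exact_mod_cast this
      nlinarith
    have h5 : ‖e l‖ ≤ C * ‖l‖ := hCe l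
    have h6 : C * 2 ≤ C * ‖l‖ := by
      calc C * 2 = M := by simp only [M]; ring
        _ ≤ _ := h2.trans h5
    exact le_of_mul_le_mul_left h6 hC
  obtain ⟨P, hsep, hinv, hd⟩ := FinL.exists_max L hL
  obtain ⟨p₀, hp₀, _⟩ := hd 0
  have hPne : P.Nonempty := ⟨p₀, hp₀⟩
  -- the fundamental domain
  let K : Set X := e.symm '' (Icc (0 : Fin n → ℝ) (fun _ => M))
  have hK : IsCompact K := (isCompact_Icc).image e.symm.continuous
  have hKne : K.Nonempty := ⟨e.symm 0, 0, ⟨le_refl _, fun _ => hM.le⟩, rfl⟩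
  obtain ⟨x₀, hx₀, hmax⟩ := hK.exists_isMaxOn hKne
    (Metric.continuous_infDist_pt P).continuousOn
  have hρ : Metric.infDist x₀ P < 2 := by
    obtain ⟨p, hp, hlt⟩ := hd x₀
    refine lt_of_le_of_lt (Metric.infDist_le_dist_of_mem hp) ?_
    rwa [dist_eq_norm]
  have hρ0 : 0 ≤ Metric.infDist x₀ P := Metric.infDist_nonneg
  refine ⟨(Metric.infDist x₀ P + 2) / 2, by linarith, by linarith, P, hsep, ?_⟩
  intro x
  -- translate into the fundamental domain
  let l : X := e.symm (fun i => M * (⌊e x i / M⌋ : ℤ))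
  have hl : l ∈ L := by
    intro i
    exact ⟨⌊e x i / M⌋, by simp [l]⟩
  have hxl : x - l ∈ K := by
    refine ⟨e (x - l), ⟨?_, ?_⟩, by simp⟩
    · intro i
      have h1 : e (x - l) i = e x i - M * (⌊e x i / M⌋ : ℤ) := by simp [l, map_sub]
      rw [h1, Pi.zero_apply]
      have h2 := Int.floor_le (e x i / M)
      rw [le_div_iff₀ hM] at h2
      linarith
    · intro i
      have h1 : e (x - l) i = e x i - M * (⌊e x i / M⌋ : ℤ) := by simp [l, map_sub]
      rw [h1]
      have h2 := (Int.lt_floor_add_one (e x i / M)).le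
      rw [div_le_iff₀ hM] at h2
      linarith
  have h1 : Metric.infDist (x - l) P ≤ Metric.infDist x₀ P := hmax hxl
  have h2 : Metric.infDist (x - l) P < (Metric.infDist x₀ P + 2) / 2 := by linarith
  obtain ⟨p, hp, hlt⟩ := (Metric.infDist_lt_iff hPne).1 h2
  refine ⟨p + l, hinv p hp l hl, ?_⟩
  rw [dist_eq_norm] at hlt
  have h3 : x - (p + l) = x - l - p := by abel
  rw [h3]
  exact hlt.le

end Pool.Agent.Helper79K9.SPC
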