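import Pool.Agent.Helper79K9.SPC.Defs

/-!
# KEY: filters of separated vectors on all levels of completeness
-/

set_option autoImplicit false

namespace Pool.Agent.Helper79K9.SPC

open Filter Cardinal Set

universe u

namespace KeyL

variable {X : Type u} [NormedAddCommGroup X] [NormedSpace ℝ X]

/-- `B` is a bound for a `c`-complete filter of vectors which is separated for `ν`. -/
def Good (ν : Seminorm ℝ X) (c : Cardinal.{u}) (B : ℝ) : Prop :=
  ∃ G : Filter X, G.NeBot ∧ CardinalInterFilter G c ∧ (∀ a : X, ∀ᶠ v in G, 1 ≤ ν (a + v)) ∧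
    ∀ᶠ v in G, ‖v‖ ≤ B

theorem good_mono_c {ν : Seminorm ℝ X} {c c' : Cardinal.{u}} (h : c ≤ c') {B : ℝ}
    (hB : Good ν c' B) : Good ν c B := by
  obtain ⟨G, h1, h2, h3, h4⟩ := hB
  exact ⟨G, h1, CardinalInterFilter.of_cardinalInterFilter_of_le G h, h3, h4⟩

theorem good_mono_B {ν : Seminorm ℝ X} {c : Cardinal.{u}} {B B' : ℝ} (h : B ≤ B')
    (hB : Good ν c B) : Good ν c B' := by
  obtain ⟨G, h1, h2, h3, h4⟩ := hB
  exact ⟨G, h1, h2, h3, h4.mono fun v hv => hv.trans h⟩

theorem good_low {ν : Seminorm ℝ X} {c : Cardinal.{u}} {B C : ℝ} (hC : 0 < C)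
    (h1 : ∀ x, ν x ≤ C * ‖x‖) (hB : Good ν c B) : 1 / C ≤ B := by
  obtain ⟨G, h2, -, h3, h4⟩ := hB
  obtain ⟨v, hv, hv'⟩ := ((h3 0).and h4).exists
  rw [zero_add] at hv
  have h5 := h1 v
  rw [div_le_iff₀ hC]
  nlinarith

theorem good_ex {ν : Seminorm ℝ X} {c : Cardinal.{u}} {C : ℝ} (hC : 0 < C) {V : Set X}
    (h2 : ∀ x, ‖x‖ ≤ C * ν x) (hV1 : ∀ v ∈ V, ‖v‖ ≤ 1)
    (hV2 : ∀ v ∈ V, ∀ w ∈ V, v ≠ w → 1 / 2 ≤ ‖v - w‖) (hreg : c.IsRegular) (hc : c ≤ #V) :
    Good ν c (4 * C) := by
  obtain ⟨W, hWV, hW⟩ := le_mk_iff_exists_subset.1 hc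
  have hne : (cocardinal W hreg).NeBot := by
    have h := cocardinal_inf_principal_neBot_iff (α := W) (hreg := hreg) (s := Set.univ)
    rw [principal_univ, inf_top_eq, mk_univ] at h
    exact h.2 hW.ge
  refine ⟨map (fun v : W => (4 * C) • (v : X)) (cocardinal W hreg), inferInstance, inferInstance,
    ?_, ?_⟩
  · intro a
    rw [eventually_map, eventually_cocardinal]
    have hsub : {x : W | ¬ 1 ≤ ν (a + (4 * C) • (x : X))}.Subsingleton := by
      intro x hx y hy
      by_contra hne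
      have hne' : (x : X) ≠ y := fun h => hne (Subtype.ext h)
      have h3 := hV2 x (hWV x.2) y (hWV y.2) hne'
      rw [mem_ofPred_eq, not_le] at hx hy
      have h4 := h2 ((x : X) - y)
      have h5 : ν ((a + (4 * C) • (x : X)) - (a + (4 * C) • (y : X))) =
          (4 * C) * ν ((x : X) - y) := by
        have : (a + (4 * C) • (x : X)) - (a + (4 * C) • (y : X)) = (4 * C) • ((x : X) - y) := by
          rw [smul_sub]
          abel
        rw [this, map_smul_eq_mul, Real.norm_of_nonneg (by positivity)]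
      have h6 := map_sub_le_add ν (a + (4 * C) • (x : X)) (a + (4 * C) • (y : X))
      rw [h5] at h6
      nlinarith
    exact lt_of_le_of_lt (mk_le_one_iff_set_subsingleton.2 hsub)
      (lt_of_lt_of_le one_lt_aleph0 hreg.aleph0_le)
  · rw [eventually_map]
    refine Eventually.of_forall fun v => ?_
    rw [norm_smul, Real.norm_of_nonneg (by positivity)]
    have := hV1 v (hWV v.2)
    nlinarith

theorem good_div {ν : Seminorm ℝ X} {c : Cardinal.{u}} {B t : ℝ} (ht : 0 < t) (G : Filter X)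
    (h1 : G.NeBot) (h2 : CardinalInterFilter G c) (h : ∀ a, ∀ᶠ v in G, t ≤ ν (a + v))
    (hb : ∀ᶠ v in G, ‖v‖ ≤ B) : Good ν c (B / t) := by
  refine ⟨map (fun v : X => t⁻¹ • v) G, inferInstance, inferInstance, ?_, ?_⟩
  · intro a
    rw [eventually_map]
    filter_upwards [h (t • a)] with v hv
    have h3 : a + t⁻¹ • v = t⁻¹ • (t • a + v) := by
      rw [smul_add, smul_smul, inv_mul_cancel₀ ht.ne', one_smul]
    rw [h3, map_smul_eq_mul, Real.norm_of_nonneg (by positivity), ← div_eq_inv_mul,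
      le_div_iff₀ ht, one_mul]
    exact hv
  · rw [eventually_map]
    filter_upwards [hb] with v hv
    rw [norm_smul, Real.norm_of_nonneg (by positivity), ← div_eq_inv_mul]
    exact div_le_div_of_nonneg_right hv ht.le

theorem bind_cpl {α β : Type u} (f : Filter α) (m : α → Filter β) (c : Cardinal.{u})
    (hf : CardinalInterFilter f c) (hm : ∀ a, CardinalInterFilter (m a) c) :
    CardinalInterFilter (Filter.bind f m) c where
  cardinal_sInter_mem S hS h := by
    rw [mem_bind']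
    have h1 : ∀ᶠ a in f, ∀ s ∈ S, s ∈ m a := by
      rw [eventually_cardinal_ball hS]
      exact fun s hs => h s hs
    filter_upwards [h1] with a ha
    exact (hm a).cardinal_sInter_mem S hS ha

theorem bind_neBot {α β : Type u} (f : Filter α) (m : α → Filter β) (hf : f.NeBot)
    (hm : ∀ᶠ a in f, (m a).NeBot) : (Filter.bind f m).NeBot := by
  rw [neBot_iff, Ne, ← empty_mem_iff_bot, mem_bind']
  intro h
  obtain ⟨a, ha, ha'⟩ := (hm.and h).exists
  exact ha.ne (empty_mem_iff_bot.1 ha')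

end KeyL

open KeyL in
/-- KEY -/
theorem key : S_KEY.{u} := by
  intro X _ _ ν C k V I c hC h1 h2 hUC hV1 hV2 hI hc
  obtain ⟨hk, hk1, huc⟩ := hUC
  let R : I → ℝ := fun i => sInf {B | Good ν (c i) B}
  have hne : ∀ i, (4 * C) ∈ {B | Good ν (c i) B} := fun i =>
    good_ex hC h2 hV1 hV2 (hc i).1 (hc i).2
  have hbdd : ∀ i, BddBelow {B | Good ν (c i) B} := fun i => ⟨1 / C, fun B hB => good_low hC h1 hB⟩
  have hRle : ∀ i, R i ≤ 4 * C := fun i => csInf_le (hbdd i) (hne i)
  have hRge : ∀ i, 1 / C ≤ R i := fun i => le_csInf ⟨_, hne i⟩ fun B hB => good_low hC h1 hB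
  have hbR : BddAbove (Set.range R) := ⟨4 * C, by rintro _ ⟨i, rfl⟩; exact hRle i⟩
  set Rs : ℝ := ⨆ i, R i with hRs
  have hRs0 : 0 < Rs := by
    obtain ⟨i⟩ := hI
    exact lt_of_lt_of_le (by positivity) ((hRge i).trans (le_ciSup hbR i))
  set ε : ℝ := Rs * k / 8 with hε
  have hε0 : 0 < ε := by positivity
  obtain ⟨i₀, hi₀⟩ := exists_lt_of_lt_ciSup (show Rs - ε < ⨆ i, R i by linarith)
  set Rp : ℝ := Rs + ε with hRp
  have hRp0 : 0 < Rp := by positivity
  have hnum : Rp * (1 + k / 2) / (1 + k) < Rs - ε := by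
    rw [div_lt_iff₀ (by linarith)]
    have h3 : 0 < Rs * k := by positivity
    rw [hRp, hε]
    nlinarith
  have hnum2 : Rp / (1 + k) < Rs - ε := by
    refine lt_of_le_of_lt ?_ hnum
    refine div_le_div_of_nonneg_right ?_ (by linarith)
    nlinarith
  have hlow : ∀ i, c i₀ ≤ c i → ∀ B, Good ν (c i) B → Rs - ε < B := by
    intro i hi B hB
    exact lt_of_lt_of_le hi₀ (csInf_le (hbdd i₀) (good_mono_c hi hB))
  -- the filters
  have hex : ∀ i : {i : I // c i₀ ≤ c i}, ∃ (a : X) (F : Filter X), F.NeBot ∧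
      CardinalInterFilter F (c i.1) ∧ (∀ a : X, ∀ᶠ v in F, 1 ≤ ν (a + v)) ∧
      (∀ᶠ v in F, ‖v‖ ≤ Rp) ∧ ∀ᶠ v in F, ν (a + v) ≤ 1 + k := by
    intro i
    have h3 : sInf {B | Good ν (c i.1) B} < Rp :=
      lt_of_le_of_lt (le_ciSup hbR i.1) (by linarith)
    obtain ⟨B, hB, hB'⟩ := exists_lt_of_csInf_lt ⟨_, hne i.1⟩ h3
    obtain ⟨G, g1, g2, g3, g4⟩ := good_mono_B hB'.le hB
    have h4 : ∃ a, ∃ᶠ v in G, ν (a + v) ≤ 1 + k := by
      by_contra hcon
      push Not at hcon
      have h5 := good_div (ν := ν) (t := 1 + k) (by linarith) G g1 g2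
        (fun a => (hcon a).mono fun v hv => hv.le) g4
      exact absurd (hlow i.1 i.2 _ h5) (not_lt.2 hnum2.le)
    obtain ⟨a, ha⟩ := h4
    refine ⟨a, G ⊓ 𝓟 {v | ν (a + v) ≤ 1 + k}, ?_, inferInstance, ?_, ?_, ?_⟩
    · exact frequently_mem_iff_neBot.1 ha
    · exact fun b => (g3 b).filter_mono inf_le_left
    · exact g4.filter_mono inf_le_left
    · have : {v | ν (a + v) ≤ 1 + k} ∈ G ⊓ 𝓟 {v | ν (a + v) ≤ 1 + k} :=
        mem_inf_of_right (mem_principal_self _)
      exact this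
  choose a F hF1 hF2 hF3 hF4 hF5 using hex
  -- the claim
  have claim : ∀ i j : {i : I // c i₀ ≤ c i}, c i.1 ≤ c j.1 → ∀ b : X, ∀ σ : ℝ,
      (σ = 1 ∨ σ = -1) → ∀ᶠ z in F i, ∀ᶠ z' in F j,
        Rp * (1 + k / 2) ≤ ‖b + (σ / 2) • z + z'‖ := by
    intro i j hij b σ hσ
    by_contra hcon
    set ρ := Rp * (1 + k / 2) with hρ
    rw [Filter.not_eventually] at hcon
    set S : Set X := {z | ∃ᶠ z' in F j, ‖b + (σ / 2) • z + z'‖ < ρ} with hS
    have hcon' : ∃ᶠ z in F i, z ∈ S := by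
      refine hcon.mono fun z hz => ?_
      rw [Filter.not_eventually] at hz
      exact hz.mono fun z' hz' => not_le.1 hz'
    have hH1 : (F i ⊓ 𝓟 S).NeBot := frequently_mem_iff_neBot.1 hcon'
    have hH2 : CardinalInterFilter (F i ⊓ 𝓟 S) (c i.1) := inferInstance
    let K : X → Filter X := fun z => F j ⊓ 𝓟 {z' | ‖b + (σ / 2) • z + z'‖ < ρ}
    have hK : ∀ z, CardinalInterFilter (K z) (c i.1) := fun z =>
      CardinalInterFilter.of_cardinalInterFilter_of_le (K z) hij
    let m : X → Filter X := fun z => map (fun z' => b + (σ / 2) • z + z') (K z)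
    have hm : ∀ z, CardinalInterFilter (m z) (c i.1) := fun z => by
      have := hK z
      exact inferInstanceAs (CardinalInterFilter (map _ (K z)) (c i.1))
    have hSmem : ∀ᶠ z in F i ⊓ 𝓟 S, z ∈ S := mem_inf_of_right (mem_principal_self _)
    have hG1 : (Filter.bind (F i ⊓ 𝓟 S) m).NeBot := by
      refine bind_neBot _ _ hH1 (hSmem.mono fun z hz => ?_)
      have : (K z).NeBot := frequently_mem_iff_neBot.1 hz
      exact this.map _
    have hG2 := bind_cpl (F i ⊓ 𝓟 S) m (c i.1) hH2 hm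
    have hG3 : ∀ b' : X, ∀ᶠ w in Filter.bind (F i ⊓ 𝓟 S) m, 1 + k ≤ ν (b' + w) := by
      intro b'
      rw [eventually_bind]
      have h5 : ∀ᶠ z in F i ⊓ 𝓟 S, 1 ≤ ν ((2 * σ) • (b' + b - a j) + z) :=
        (hF3 i _).filter_mono inf_le_left
      filter_upwards [h5] with z hz
      rw [eventually_map]
      have h6 : ∀ᶠ z' in K z, 1 ≤ ν ((1 / 2 : ℝ) • (b' + b + (σ / 2) • z + a j) + z') :=
        (hF3 j _).filter_mono inf_le_left
      have h7 : ∀ᶠ z' in K z, ν (a j + z') ≤ 1 + k := (hF5 j).filter_mono inf_le_left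
      filter_upwards [h6, h7] with z' h8 h9
      by_contra h10
      push Not at h10
      have h11 : ν (b' + (b + (σ / 2) • z + z')) ≤ 1 + k := h10.le
      have h12 : (1 / 2 : ℝ) ≤ ν ((b' + (b + (σ / 2) • z + z')) - (a j + z')) := by
        have hσ2 : σ * σ = 1 := by rcases hσ with h | h <;> rw [h] <;> norm_num
        have hσa : ‖σ / 2‖ = 1 / 2 := by
          rcases hσ with h | h <;> rw [h] <;> norm_num
        have h13 : (b' + (b + (σ / 2) • z + z')) - (a j + z') =
            (σ / 2) • ((2 * σ) • (b' + b - a j) + z) := by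
          rw [smul_add, smul_smul]
          have : σ / 2 * (2 * σ) = 1 := by linarith
          rw [this, one_smul]
          abel
        rw [h13, map_smul_eq_mul, hσa]
        linarith
      have h14 := huc _ _ h11 h9 h12
      have h15 : (1 / 2 : ℝ) • (b' + (b + (σ / 2) • z + z') + (a j + z')) =
          (1 / 2 : ℝ) • (b' + b + (σ / 2) • z + a j) + z' := by
        have : b' + (b + (σ / 2) • z + z') + (a j + z') =
            (b' + b + (σ / 2) • z + a j) + (2 : ℝ) • z' := by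
          rw [two_smul]
          abel
        rw [this, smul_add, smul_smul]
        norm_num
      rw [h15] at h14
      linarith
    have hG4 : ∀ᶠ w in Filter.bind (F i ⊓ 𝓟 S) m, ‖w‖ ≤ ρ := by
      rw [eventually_bind]
      refine Eventually.of_forall fun z => ?_
      rw [eventually_map]
      have : {z' | ‖b + (σ / 2) • z + z'‖ < ρ} ∈ K z := mem_inf_of_right (mem_principal_self _)
      filter_upwards [this] with z' hz'
      exact le_of_lt hz'
    have h16 := good_div (ν := ν) (t := 1 + k) (by linarith) _ hG1 hG2 hG3 hG4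
    exact absurd (hlow i.1 i.2 _ h16) (not_lt.2 hnum.le)
  refine ⟨i₀, fun i => map (fun v => Rp⁻¹ • v) (F i), ?_, ?_, ?_, ?_⟩
  · intro i
    exact (hF1 i).map _
  · intro i
    have := hF2 i
    exact inferInstanceAs (CardinalInterFilter (map _ (F i)) (c i.1))
  · intro i
    rw [eventually_map]
    filter_upwards [hF4 i] with v hv
    rw [norm_smul, Real.norm_of_nonneg (by positivity), ← div_eq_inv_mul, div_le_one hRp0]
    exact hv
  · intro i j hij b σ hσ
    rw [eventually_map]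
    filter_upwards [claim i j hij (Rp • b) σ hσ] with z hz
    rw [eventually_map]
    filter_upwards [hz] with z' hz'
    have h17 : b + (σ / 2) • Rp⁻¹ • z + Rp⁻¹ • z' = Rp⁻¹ • (Rp • b + (σ / 2) • z + z') := by
      rw [smul_add, smul_add, smul_smul, smul_smul, smul_smul, inv_mul_cancel₀ hRp0.ne', one_smul,
        mul_comm]
    rw [h17, norm_smul, Real.norm_of_nonneg (by positivity), ← div_eq_inv_mul, le_div_iff₀ hRp0]
    linarith

end Pool.Agent.Helper79K9.SPC
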