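import Pool.Agent.Helper79K9.SPC.Defs

/-!
# The transfinite construction (REC)
-/

set_option autoImplicit false

namespace Pool.Agent.Helper79K9.SPC

open Filter Cardinal Set

universe u

theorem recs (st : S_STEP.{u}) : S_REC.{u} := by
  classical
  intro X _ _ k hk hk1 κ hκ D hD hDκ I c F hF hc hμ
  have hJ : #κ.ord.ToType = κ := mk_ord_toType κ
  have hIio : ∀ a : κ.ord.ToType, #(Iio a) < κ := fun a => by simpa using mk_Iio_lt a
  have hDn : D.Nonempty := hD.nonempty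
  obtain ⟨x, hx⟩ : ∃ x : κ.ord.ToType → X, D ⊆ range x := by
    haveI : Nonempty D := hDn.to_subtype
    obtain ⟨e⟩ : Nonempty (D ↪ κ.ord.ToType) := by
      rw [← Cardinal.le_def, hJ]; exact hDκ
    refine ⟨fun j => (Function.invFun e j : D), fun d hd => ?_⟩
    refine ⟨e ⟨d, hd⟩, ?_⟩
    have h1 := Function.leftInverse_invFun e.injective ⟨d, hd⟩
    exact congrArg Subtype.val h1
  have hlev : ∀ a : κ.ord.ToType, ∃ i : I, #(Iio a) < c i ∧ ∀ j : I, #(Iio a) < c j → c i ≤ c j := by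
    intro a
    obtain ⟨i, hi, hmin⟩ := WellFounded.has_min (InvImage.wf c Cardinal.lt_wf)
      {i : I | #(Iio a) < c i} (hμ _ (hIio a))
    exact ⟨i, hi, fun j hj => not_lt.1 (hmin j hj)⟩
  choose lev hlev1 hlev2 using hlev
  have hmono : ∀ a b : κ.ord.ToType, b < a → c (lev b) ≤ c (lev a) := by
    intro a b hba
    refine hlev2 b _ (lt_of_le_of_lt ?_ (hlev1 a))
    exact Cardinal.mk_le_mk_of_subset (Iio_subset_Iio hba.le)
  set r : ℝ := 2 / (1 + k / 5) with hr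
  set s : ℝ := 2 - k / 2 with hs
  let Good : κ.ord.ToType → Set X → X → Prop := fun a U q =>
    ‖q - x a‖ ≤ r ∧ (∀ p ∈ U, 2 ≤ ‖q - p‖) ∧
      ∀ p ∈ U, ∀ j : I, c (lev a) ≤ c j → ∀ σ : ℝ, (σ = 1 ∨ σ = -1) →
        ∀ᶠ v in F j, 1 + k ≤ ‖(σ / (2 * s)) • (q - p) + v‖
  let Spec : κ.ord.ToType → Set X → Set X → Prop := fun a U P' =>
    (∃ q, P' = {q} ∧ Good a U q) ∨ (P' = ∅ ∧ ¬ ((∀ p ∈ U, r ≤ ‖x a - p‖) ∧ ∃ q, Good a U q))
  have hex : ∀ a U, ∃ P', Spec a U P' := by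
    intro a U
    by_cases h : (∀ p ∈ U, r ≤ ‖x a - p‖) ∧ ∃ q, Good a U q
    · obtain ⟨q, hq⟩ := h.2
      exact ⟨{q}, Or.inl ⟨q, rfl, hq⟩⟩
    · exact ⟨∅, Or.inr ⟨rfl, h⟩⟩
  choose ch hch using hex
  let G : (a : κ.ord.ToType) → ((b : κ.ord.ToType) → b < a → Set X) → Set X :=
    fun a prev => ch a (⋃ b, ⋃ h : b < a, prev b h)
  let f : κ.ord.ToType → Set X := (wellFounded_lt (α := κ.ord.ToType)).fix G
  have hf : ∀ a, f a = ch a (⋃ b, ⋃ _ : b < a, f b) := fun a => WellFounded.fix_eq _ G a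
  let U : κ.ord.ToType → Set X := fun a => ⋃ b, ⋃ _ : b < a, f b
  have hU : ∀ a p, p ∈ U a ↔ ∃ b, b < a ∧ p ∈ f b := by
    intro a p
    simp only [U, mem_iUnion, exists_prop]
  have hspec : ∀ a, Spec a (U a) (f a) := fun a => by
    rw [hf a]; exact hch a (U a)
  have hgood : ∀ a q, q ∈ f a → Good a (U a) q := by
    intro a q hq
    rcases hspec a with ⟨q', h1, h2⟩ | ⟨h1, -⟩
    · rw [h1, mem_singleton_iff] at hq
      rw [hq]; exact h2
    · rw [h1] at hq; exact absurd hq (notMem_empty _)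
  have hsub : ∀ a p q, p ∈ f a → q ∈ f a → p = q := by
    intro a p q hp hq
    rcases hspec a with ⟨q', h1, h2⟩ | ⟨h1, -⟩
    · rw [h1, mem_singleton_iff] at hp hq
      rw [hp, hq]
    · rw [h1] at hq; exact absurd hq (notMem_empty _)
  have hcard : ∀ a, #(U a) < c (lev a) := by
    intro a
    refine lt_of_le_of_lt ?_ (hlev1 a)
    have h1 : ∀ p : U a, ∃ b : Iio a, p.1 ∈ f b.1 := by
      intro p
      obtain ⟨b, hb, hp⟩ := (hU a p.1).1 p.2
      exact ⟨⟨b, hb⟩, hp⟩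
    choose g hg using h1
    refine Cardinal.mk_le_of_injective (f := g) fun p q hpq => ?_
    apply Subtype.ext
    exact hsub (g p).1 _ _ (hg p) (hpq ▸ hg q)
  have hpair : ∀ a, ∀ p ∈ U a, ∀ q ∈ U a, p ≠ q →
      ∀ᶠ v in F (lev a), 1 + k ≤ ‖(1 / (2 * s)) • (p - q) + v‖ := by
    intro a p hp q hq hpq
    obtain ⟨b, hb, hpb⟩ := (hU a p).1 hp
    obtain ⟨b', hb', hqb⟩ := (hU a q).1 hq
    rcases lt_trichotomy b b' with h | h | h
    · have h1 := (hgood b' q hqb).2.2 p ((hU b' p).2 ⟨b, h, hpb⟩) (lev a) (hmono a b' hb') (-1)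
        (Or.inr rfl)
      filter_upwards [h1] with v hv
      have h2 : (1 / (2 * s)) • (p - q) = (-1 / (2 * s)) • (q - p) := by
        rw [neg_div, neg_smul, ← smul_neg, neg_sub]
      rw [h2]; exact hv
    · subst h
      exact absurd (hsub b p q hpb hqb) hpq
    · exact (hgood b p hpb).2.2 q ((hU b q).2 ⟨b', h, hqb⟩) (lev a) (hmono a b hb) 1 (Or.inl rfl)
  refine ⟨⋃ a, f a, ?_, ?_⟩
  · intro p hp q hq hpq
    obtain ⟨a, ha⟩ := mem_iUnion.1 hp
    obtain ⟨b, hb⟩ := mem_iUnion.1 hq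
    rcases lt_trichotomy a b with h | h | h
    · rw [norm_sub_rev]
      exact (hgood b q hb).2.1 p ((hU b p).2 ⟨a, h, ha⟩)
    · subst h
      exact absurd (hsub a p q ha hb) hpq
    · exact (hgood a p ha).2.1 q ((hU a q).2 ⟨b, h, hb⟩)
  · intro y hy
    obtain ⟨a, rfl⟩ := hx hy
    rcases hspec a with ⟨q, h1, h2⟩ | ⟨h1, h2⟩
    · refine ⟨q, mem_iUnion.2 ⟨a, by rw [h1]; exact mem_singleton q⟩, ?_⟩
      rw [norm_sub_rev]; exact h2.1
    · have h3 : ¬ ∀ p ∈ U a, r ≤ ‖x a - p‖ := by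
        intro h4
        refine h2 ⟨h4, ?_⟩
        exact st X k hk hk1 I c F hF (lev a) (hc _).2 (hc _).1 (U a) (hcard a) (hpair a) (x a) h4
      push Not at h3
      obtain ⟨p, hp, hpr⟩ := h3
      obtain ⟨b, hb, hpb⟩ := (hU a p).1 hp
      exact ⟨p, mem_iUnion.2 ⟨b, hpb⟩, hpr.le⟩

end Pool.Agent.Helper79K9.SPC
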