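import Pool.Agent.Helper79K9.SPC.Step
import Pool.Agent.Helper79K9.SPC.Rec

/-!
# Assembly
-/

set_option autoImplicit false

namespace Pool.Agent.Helper79K9.SPC

open Filter Cardinal Set

universe u

theorem main (fin : S_FIN.{u}) (card : S_CARD.{u}) (dens : S_DENS.{u}) (key : S_KEY.{u})
    (X : Type u) [NormedAddCommGroup X] [NormedSpace ℝ X] (ν : Seminorm ℝ X) (C k : ℝ)
    (hC : 0 < C) (h1 : ∀ x, ν x ≤ C * ‖x‖) (h2 : ∀ x, ‖x‖ ≤ C * ν x) (huc : UC ν k) :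
    ∃ r : ℝ, 0 < r ∧ r < 2 ∧ ∃ P : Set X, TwoSep P ∧ RDense r P := by
  by_cases hfd : FiniteDimensional ℝ X
  · exact fin X
  obtain ⟨V, D, hV1, hV2, hVi, hD, hDV⟩ := dens X hfd
  have hκ : ℵ₀ ≤ #V := by
    haveI := hVi.to_subtype
    exact Cardinal.aleph0_le_mk V
  obtain ⟨I, c, hc, hμ⟩ := card (#V) hκ
  have hIn : Nonempty I := by
    obtain ⟨i, -⟩ := hμ 0 (lt_of_lt_of_le Cardinal.aleph0_pos hκ)
    exact ⟨i⟩
  obtain ⟨i₀, F, hF⟩ := key X ν C k V I c hC h1 h2 huc hV1 hV2 hIn fun i => ⟨(hc i).1, (hc i).2.1⟩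
  have hk0 := huc.1
  have hk1 := huc.2.1
  obtain ⟨P, hP1, hP2⟩ := recs step X (k / 2) (by linarith) (by linarith) (#V) hκ D hD hDV
    {i : I // c i₀ ≤ c i} (fun i => c i.1) F hF
    (fun i => ⟨(hc i.1).1.aleph0_le, lt_of_le_of_lt (Cardinal.mk_subtype_le _) (hc i.1).2.2⟩)
    (fun μ hm => by
      obtain ⟨i, hi⟩ := hμ μ hm
      by_cases h : c i₀ ≤ c i
      · exact ⟨⟨i, h⟩, hi⟩
      · exact ⟨⟨i₀, le_rfl⟩, hi.trans (not_le.1 h)⟩)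
  have hr0 : 0 < 2 / (1 + k / 2 / 5) := by positivity
  have hr2 : 2 / (1 + k / 2 / 5) < 2 := by
    rw [div_lt_iff₀ (by positivity)]
    linarith
  set r0 : ℝ := 2 / (1 + k / 2 / 5) with hr
  refine ⟨(r0 + 2) / 2, by linarith, by linarith, P, hP1, fun x => ?_⟩
  obtain ⟨d, hd, hdx⟩ := hD.exists_dist_lt x (ε := (2 - r0) / 2) (by linarith)
  obtain ⟨p, hp, hpd⟩ := hP2 d hd
  refine ⟨p, hp, ?_⟩
  rw [dist_eq_norm] at hdx
  have h3 : ‖x - p‖ ≤ ‖x - d‖ + ‖d - p‖ := norm_sub_le_norm_sub_add_norm_sub x d p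
  linarith

end Pool.Agent.Helper79K9.SPC
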