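import Pool.Agent.Helper79K9.SPC.Defs

/-!
# One step of the construction (STEP)
-/

set_option autoImplicit false

namespace Pool.Agent.Helper79K9.SPC

open Filter Cardinal Set

universe u

namespace StepL

variable {X : Type u} [NormedAddCommGroup X] [NormedSpace ℝ X]

theorem ev_ball {F : Filter X} {c : Cardinal.{u}} [CardinalInterFilter F c] {P : Set X}
    (hP : #P < c) {Q : X → X → Prop} (h : ∀ p ∈ P, ∀ᶠ v in F, Q v p) :
    ∀ᶠ v in F, ∀ p ∈ P, Q v p := by
  have h1 : ∀ᶠ v in F, ∀ p : P, Q v p.1 := (eventually_cardinal_forall hP).2 fun p => h p.1 p.2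
  exact h1.mono fun v hv p hp => hv ⟨p, hp⟩

theorem ev_all {F : Filter X} {c : Cardinal.{u}} [CardinalInterFilter F c] {I : Type u}
    (hI : #I < c) {Q : X → I → Prop} (h : ∀ i, ∀ᶠ v in F, Q v i) :
    ∀ᶠ v in F, ∀ i, Q v i := (eventually_cardinal_forall hI).2 h

/-- the generic condition -/
def Gen (k s : ℝ) {I : Type u} (c : I → Cardinal.{u}) (F : I → Filter X) (i : I) (P : Set X)
    (q : X) : Prop :=
  ∀ p ∈ P, ∀ j : I, c i ≤ c j → ∀ σ : ℝ, (σ = 1 ∨ σ = -1) →
    ∀ᶠ v in F j, 1 + k ≤ ‖(σ / (2 * s)) • (q - p) + v‖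

theorem gen_ev {k s : ℝ} (hs : 0 < s) {I : Type u} {c : I → Cardinal.{u}} {F : I → Filter X}
    (hF : Fam k c F) {i : I} (hI : #I < c i) {P : Set X} (hP : #P < c i) (w : X) (t : ℝ)
    (ht : t = 1 ∨ t = -1) : ∀ᶠ v in F i, Gen k s c F i P (w + (t * s) • v) := by
  haveI := hF.cpl i
  unfold Gen
  refine ev_ball hP fun p hp => ev_all hI fun j => ?_
  by_cases hj : c i ≤ c j
  swap
  · exact Filter.Eventually.of_forall fun v h => absurd h hj
  have key : ∀ σ : ℝ, (σ = 1 ∨ σ = -1) → ∀ᶠ v in F i, ∀ᶠ v' in F j,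
      1 + k ≤ ‖(σ / (2 * s)) • (w + (t * s) • v - p) + v'‖ := by
    intro σ hσ
    have hστ : σ * t = 1 ∨ σ * t = -1 := by
      rcases hσ with h | h <;> rcases ht with h' | h' <;> simp [h, h']
    have h1 := hF.sep i j hj ((σ / (2 * s)) • (w - p)) (σ * t) hστ
    filter_upwards [h1] with v hv
    filter_upwards [hv] with v' hv'
    have h2 : (σ / (2 * s)) • (w + (t * s) • v - p) + v' =
        (σ / (2 * s)) • (w - p) + (σ * t / 2) • v + v' := by
      have h3 : (σ / (2 * s)) • ((t * s) • v) = (σ * t / 2) • v := by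
        rw [smul_smul]
        congr 1
        field_simp
      rw [show w + (t * s) • v - p = (w - p) + (t * s) • v by abel, smul_add, h3]
    rw [h2]
    exact hv'
  filter_upwards [key 1 (Or.inl rfl), key (-1) (Or.inr rfl)] with v h1 h2 _ σ hσ
  rcases hσ with h | h
  · subst h; exact h1
  · subst h; exact h2

end StepL

open StepL in
theorem step : S_STEP.{u} := by
  intro X _ _ k hk hk1 I c F hF i hI hci P hP hPP x hx
  haveI := hF.cpl i
  haveI := hF.neBot i
  set s : ℝ := 2 - k / 2 with hs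
  set θ : ℝ := k / 5 with hθ
  set r : ℝ := 2 / (1 + θ) with hr
  have hs0 : 0 < s := by rw [hs]; linarith
  have hθ0 : 0 < θ := by rw [hθ]; linarith
  have hrθ : (1 + θ) * r = 2 := by rw [hr]; field_simp
  have hsk : 2 + k ≤ s * (1 + k) := by rw [hs]; nlinarith
  have hθk : θ ≤ k := by rw [hθ]; linarith
  have hrs : 2 * θ + (1 - θ) * s ≤ r := by
    have h1 : (2 * θ + (1 - θ) * s) * (1 + θ) ≤ 2 := by
      rw [hs, hθ]
      nlinarith [mul_pos hk hk, mul_nonneg hk.le (sub_nonneg.2 hk1),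
        mul_nonneg (mul_nonneg hk.le hk.le) (sub_nonneg.2 hk1)]
    rw [hr, le_div_iff₀ (by linarith)]
    exact h1
  have hsr : s ≤ r := by
    have : s ≤ 2 := by rw [hs]; linarith
    nlinarith
  have hbd := hF.bd i
  -- the two-point estimate
  have two : ∀ p ∈ P, ∀ q ∈ P, p ≠ q → ∀ᶠ v in F i, ∀ t : ℝ, (t = 1 ∨ t = -1) →
      ‖x - p + (t * s) • v‖ < 2 → 2 + 2 * k ≤ ‖x - q - (t * s) • v‖ := by
    intro p hp q hq hpq
    filter_upwards [hPP p hp q hq hpq, hPP q hq p hp hpq.symm] with v h1 h2 t ht h3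
    -- `(1/2)(q - p) + t s v = (1/2)[(x - p + t s v) - (x - q - t s v)]`
    have h4 : 2 * s * (1 + k) ≤ ‖(q - p) + (2 * (t * s)) • v‖ := by
      rcases ht with rfl | rfl
      · have h5 : (q - p) + (2 * (1 * s)) • v = (2 * s) • ((1 / (2 * s)) • (q - p) + v) := by
          rw [smul_add, smul_smul]
          have : 2 * s * (1 / (2 * s)) = 1 := by field_simp
          rw [this, one_smul, one_mul]
        rw [h5, norm_smul, Real.norm_of_nonneg (by positivity)]
        nlinarith
      · have h5 : (q - p) + (2 * (-1 * s)) • v = -((2 * s) • ((1 / (2 * s)) • (p - q) + v)) := by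
          rw [smul_add, smul_smul]
          have : 2 * s * (1 / (2 * s)) = 1 := by field_simp
          rw [this, one_smul, neg_add, neg_sub, show 2 * (-1 * s) = -(2 * s) by ring, neg_smul]
        rw [h5, norm_neg, norm_smul, Real.norm_of_nonneg (by positivity)]
        nlinarith
    have h6 : (q - p) + (2 * (t * s)) • v = (x - p + (t * s) • v) - (x - q - (t * s) • v) := by
      rw [two_mul, add_smul]; abel
    have h7 : ‖(q - p) + (2 * (t * s)) • v‖ ≤ ‖x - p + (t * s) • v‖ + ‖x - q - (t * s) • v‖ := by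
      rw [h6]; exact norm_sub_le _ _
    nlinarith
  by_cases hA : ∀ p ∈ P, ∀ᶠ v in F i, 2 ≤ ‖x + (1 * s) • v - p‖
  · obtain ⟨v, h1, h2, h3⟩ := ((ev_ball hP hA).and
      ((gen_ev hs0 hF hI hP x 1 (Or.inl rfl)).and hbd)).exists
    refine ⟨x + (1 * s) • v, ?_, h1, h2⟩
    rw [add_sub_cancel_left, norm_smul, one_mul, Real.norm_of_nonneg hs0.le]
    nlinarith [norm_nonneg v]
  push Not at hA
  obtain ⟨p, hp, hpf⟩ := hA
  have hpf' : ∃ᶠ v in F i, ‖x - p + (1 * s) • v‖ < 2 := by
    refine hpf.mono fun v hv => ?_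
    rwa [show x - p + (1 * s) • v = x + (1 * s) • v - p by abel]
  set F1 : Filter X := F i ⊓ 𝓟 {v | ‖x - p + (1 * s) • v‖ < 2} with hF1
  haveI hF1n : F1.NeBot := by
    rw [hF1]
    exact Filter.frequently_iff_neBot.1 hpf'
  have hF1l : F1 ≤ F i := inf_le_left
  have hF1m : ∀ᶠ v in F1, ‖x - p + (1 * s) • v‖ < 2 :=
    mem_of_superset (mem_inf_of_right (mem_principal_self _)) fun v hv => hv
  by_cases hB : ∀ᶠ v in F1, 2 ≤ ‖x + (-1 * s) • v - p‖
  · have hall : ∀ q ∈ P, ∀ᶠ v in F1, 2 ≤ ‖x + (-1 * s) • v - q‖ := by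
      intro q hq
      by_cases hqp : p = q
      · subst hqp; exact hB
      · filter_upwards [(two p hp q hq hqp).filter_mono hF1l, hF1m] with v h1 h2
        have h3 := h1 1 (Or.inl rfl) h2
        have h4 : x + (-1 * s) • v - q = x - q - (1 * s) • v := by
          rw [show (-1 * s) = -(1 * s) by ring, neg_smul]; abel
        rw [h4]; linarith
    obtain ⟨v, h1, h2, h3⟩ := ((ev_ball hP hall).and
      (((gen_ev hs0 hF hI hP x (-1) (Or.inr rfl)).filter_mono hF1l).and
        (hbd.filter_mono hF1l))).exists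
    refine ⟨x + (-1 * s) • v, ?_, h1, h2⟩
    rw [add_sub_cancel_left, norm_smul, neg_one_mul, norm_neg, Real.norm_of_nonneg hs0.le]
    nlinarith [norm_nonneg v]
  rw [Filter.not_eventually] at hB
  set F2 : Filter X := F1 ⊓ 𝓟 {v | ‖x - p - (1 * s) • v‖ < 2} with hF2
  haveI hF2n : F2.NeBot := by
    rw [hF2]
    refine Filter.frequently_iff_neBot.1 (hB.mono fun v hv => ?_)
    rw [not_le] at hv
    rwa [show x - p - (1 * s) • v = x + (-1 * s) • v - p by
      rw [show (-1 * s) = -(1 * s) by ring, neg_smul]; abel]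
  have hF2l : F2 ≤ F1 := inf_le_left
  have hF2m : ∀ᶠ v in F2, ‖x - p - (1 * s) • v‖ < 2 :=
    mem_of_superset (mem_inf_of_right (mem_principal_self _)) fun v hv => hv
  have hall : ∀ q ∈ P, p ≠ q → ∀ᶠ v in F2, ∀ t : ℝ, (t = 1 ∨ t = -1) →
      2 + 2 * k ≤ ‖x - q + (t * s) • v‖ := by
    intro q hq hqp
    filter_upwards [(two p hp q hq hqp).filter_mono (hF2l.trans hF1l), hF1m.filter_mono hF2l,
      hF2m] with v h1 h2 h3 t ht
    rcases ht with rfl | rfl
    · have h4 : ‖x - p + (-1 * s) • v‖ < 2 := by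
        rwa [show (-1 * s) = -(1 * s) by ring, neg_smul, ← sub_eq_add_neg]
      have h5 := h1 (-1) (Or.inr rfl) h4
      rwa [show (-1 * s) = -(1 * s) by ring, neg_smul, sub_neg_eq_add] at h5
    · have h5 := h1 1 (Or.inl rfl) h2
      rwa [show (-1 * s) = -(1 * s) by ring, neg_smul, ← sub_eq_add_neg]
  have hone : ∃ t : ℝ, (t = 1 ∨ t = -1) ∧ ∃ᶠ v in F2, 2 ≤ ‖(1 + θ) • (x - p) + (t * s) • v‖ := by
    by_contra hcon
    push Not at hcon
    have h1 := hcon 1 (Or.inl rfl)
    have h2 := hcon (-1) (Or.inr rfl)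
    obtain ⟨v, h3, h4⟩ := (h1.and h2).exists
    have h5 : (2 * (1 + θ)) • (x - p) = ((1 + θ) • (x - p) + (1 * s) • v) +
        ((1 + θ) • (x - p) + (-1 * s) • v) := by
      rw [show (-1 * s) = -(1 * s) by ring, neg_smul, two_mul, add_smul]; abel
    have h6 : 2 * (1 + θ) * ‖x - p‖ ≤ ‖(1 + θ) • (x - p) + (1 * s) • v‖ +
        ‖(1 + θ) • (x - p) + (-1 * s) • v‖ := by
      have := norm_add_le ((1 + θ) • (x - p) + (1 * s) • v) ((1 + θ) • (x - p) + (-1 * s) • v)
      rw [← h5, norm_smul, Real.norm_of_nonneg (by positivity)] at this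
      exact this
    have h7 := hx p hp
    have h8 : 2 * (1 + θ) * r ≤ 2 * (1 + θ) * ‖x - p‖ := by
      apply mul_le_mul_of_nonneg_left h7 (by positivity)
    nlinarith
  obtain ⟨t, ht, hfr⟩ := hone
  have hev := ((ev_ball (F := F2) (c := c i) (Q := fun v q => p ≠ q → ∀ t : ℝ, (t = 1 ∨ t = -1) →
      2 + 2 * k ≤ ‖x - q + (t * s) • v‖) hP (fun q hq => by
        by_cases hqp : p = q
        · exact Filter.Eventually.of_forall fun v h => absurd hqp h
        · exact (hall q hq hqp).mono fun v hv _ => hv)).and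
      ((((gen_ev hs0 hF hI hP (x + θ • (x - p)) t ht).filter_mono (hF2l.trans hF1l)).and
        (hbd.filter_mono (hF2l.trans hF1l))).and ((hF1m.filter_mono hF2l).and hF2m)))
  obtain ⟨v, h1, h2, ⟨h3, h4⟩, h5, h6⟩ := (hfr.and_eventually hev).exists
  have hw : ‖x - p‖ ≤ 2 := by
    have h7 : (2 : ℝ) • (x - p) = (x - p + (1 * s) • v) + (x - p - (1 * s) • v) := by
      rw [two_smul]; abel
    have h8 := norm_add_le (x - p + (1 * s) • v) (x - p - (1 * s) • v)
    rw [← h7, norm_smul, Real.norm_of_nonneg (by norm_num)] at h8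
    linarith
  have hwt : ‖x - p + (t * s) • v‖ ≤ 2 := by
    rcases ht with rfl | rfl
    · exact h5.le
    · rw [show (-1 * s) = -(1 * s) by ring, neg_smul, ← sub_eq_add_neg]; exact h6.le
  refine ⟨x + θ • (x - p) + (t * s) • v, ?_, ?_, h3⟩
  · have h7 : x + θ • (x - p) + (t * s) • v - x = θ • (x - p + (t * s) • v) +
        ((1 - θ) * (t * s)) • v := by
      rw [smul_add, sub_mul, one_mul, sub_smul, smul_smul]; abel
    rw [h7]
    refine (norm_add_le _ _).trans ?_
    rw [norm_smul, norm_smul, norm_mul, Real.norm_of_nonneg hθ0.le,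
      Real.norm_of_nonneg (show 0 ≤ 1 - θ by rw [hθ]; linarith)]
    have h8 : ‖t * s‖ = s := by
      rw [norm_mul, Real.norm_of_nonneg hs0.le]
      rcases ht with rfl | rfl <;> simp
    rw [h8]
    have h9 : (1 - θ) * s * ‖v‖ ≤ (1 - θ) * s := by
      have : 0 ≤ (1 - θ) * s := mul_nonneg (by rw [hθ]; linarith) hs0.le
      nlinarith
    nlinarith
  · intro q hq
    by_cases hqp : p = q
    · subst hqp
      have h7 : x + θ • (x - p) + (t * s) • v - p = (1 + θ) • (x - p) + (t * s) • v := by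
        rw [add_smul, one_smul]; abel
      rw [h7]; exact h1
    · have h7 := h2 q hq hqp t ht
      have h8 : x - q + (t * s) • v = (x + θ • (x - p) + (t * s) • v - q) - θ • (x - p) := by abel
      have h9 : ‖x - q + (t * s) • v‖ ≤ ‖x + θ • (x - p) + (t * s) • v - q‖ + θ * ‖x - p‖ := by
        rw [h8]
        refine (norm_sub_le _ _).trans ?_
        rw [norm_smul, Real.norm_of_nonneg hθ0.le]
      nlinarith

end Pool.Agent.Helper79K9.SPC
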